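import Pool.Agent.helper1.PR.Defs

/-!
Module [E] of the PR project (MP_15abe0_co): cell averages and energies.
-/

namespace Pool.Agent.helper1.PR

open Finset

/-! ### general partitions -/

private theorem sum_fiber3 {α β : Type*} [DecidableEq α] [DecidableEq β] (X : Finset α)
    (π : α → β) (F : α → ℝ) :
    ∑ x ∈ X, F x = ∑ ℓ ∈ X.image π, ∑ x ∈ X with π x = ℓ, F x :=
  (sum_fiberwise_of_maps_to (fun _ hx => mem_image_of_mem π hx) F).symm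

private theorem dens_mul_card {α β : Type*} [DecidableEq β] (X : Finset α) (π : α → β)
    (f : α → ℝ) (ℓ : β) :
    (#{x ∈ X | π x = ℓ} : ℝ) * dens X π f ℓ = ∑ x ∈ X with π x = ℓ, f x := by
  unfold dens
  by_cases h : #{x ∈ X | π x = ℓ} = 0
  · rw [h]
    rw [card_eq_zero] at h
    rw [h]
    simp
  · have h' : (#{x ∈ X | π x = ℓ} : ℝ) ≠ 0 := by exact_mod_cast h
    field_simp

private theorem dens_pair {α β : Type*} [DecidableEq α] [DecidableEq β] (X : Finset α)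
    (π : α → β) (f : α → ℝ) (ψ : β → ℝ) :
    ∑ x ∈ X, f x * ψ (π x) = ∑ x ∈ X, dens X π f (π x) * ψ (π x) := by
  rw [sum_fiber3 X π, sum_fiber3 X π (fun x => dens X π f (π x) * ψ (π x))]
  refine sum_congr rfl fun ℓ _ => ?_
  have h1 : ∑ x ∈ X with π x = ℓ, f x * ψ (π x) = (∑ x ∈ X with π x = ℓ, f x) * ψ ℓ := by
    rw [sum_mul]
    refine sum_congr rfl fun x hx => ?_
    rw [(mem_filter.1 hx).2]
  have h2 : ∑ x ∈ X with π x = ℓ, dens X π f (π x) * ψ (π x) =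
      (#{x ∈ X | π x = ℓ} : ℝ) * dens X π f ℓ * ψ ℓ := by
    rw [sum_congr rfl (g := fun _ => dens X π f ℓ * ψ ℓ)
      (fun x hx => by rw [(mem_filter.1 hx).2])]
    rw [sum_const, nsmul_eq_mul]
    ring
  rw [h1, h2, dens_mul_card]

/-! ### labels -/

theorem lab_factor {M s M' s' : ℕ} (hM : M ∣ M') (hs : s ∣ s') (hs' : 0 < s') (Λ : ℕ) :
    ∃ φ : ℤ × ℤ × ℤ × ℤ → ℤ × ℤ × ℤ × ℤ, ∀ x, lab M s Λ x = φ (lab M' s' Λ x) := by
  obtain ⟨k, rfl⟩ := hs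
  have hk : 0 < k := Nat.pos_of_mul_pos_left hs' |> fun h => by
    rcases Nat.eq_zero_or_pos k with h0 | h0
    · subst h0; simp at hs'
    · exact h0
  have hdiv : ∀ a : ℤ, a * s / Λ = a * ((s * k : ℕ) : ℤ) / Λ / k := by
    intro a
    have hk' : (0 : ℤ) < k := by exact_mod_cast hk
    rw [Int.ediv_ediv_of_nonneg (by positivity)]
    push_cast
    rw [← mul_assoc, Int.mul_ediv_mul_of_pos_left _ _ hk']
  have hM' : (M : ℤ) ∣ M' := by exact_mod_cast hM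
  refine ⟨fun ℓ => (ℓ.1 % M, ℓ.2.1 % M, ℓ.2.2.1 / k, ℓ.2.2.2 / k), fun x => ?_⟩
  simp only [lab, Prod.mk.injEq]
  exact ⟨(Int.emod_emod_of_dvd _ hM').symm, (Int.emod_emod_of_dvd _ hM').symm,
    hdiv _, hdiv _⟩

theorem cav_pair (M s Λ : ℕ) (f : ℤ√2 → ℝ) (ψ : ℤ × ℤ × ℤ × ℤ → ℝ) :
    ∑ x ∈ box Λ, f x * ψ (lab M s Λ x) = ∑ x ∈ box Λ, cav M s Λ f x * ψ (lab M s Λ x) :=
  dens_pair (box Λ) (lab M s Λ) f ψ

theorem cden_nonneg (M s Λ : ℕ) {f : ℤ√2 → ℝ} (hf : ∀ x, 0 ≤ f x) (ℓ : ℤ × ℤ × ℤ × ℤ) :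
    0 ≤ cden M s Λ f ℓ :=
  div_nonneg (sum_nonneg fun x _ => hf x) (Nat.cast_nonneg _)

theorem cden_le_one (M s Λ : ℕ) {f : ℤ√2 → ℝ} (hf : ∀ x, f x ≤ 1) (ℓ : ℤ × ℤ × ℤ × ℤ) :
    cden M s Λ f ℓ ≤ 1 := by
  refine div_le_one_of_le₀ ?_ (Nat.cast_nonneg _)
  refine (sum_le_sum fun x _ => hf x).trans ?_
  rw [sum_const, nsmul_eq_mul, mul_one]

theorem abs_cden_le_one (M s Λ : ℕ) {f : ℤ√2 → ℝ} (hf : ∀ x, |f x| ≤ 1)
    (ℓ : ℤ × ℤ × ℤ × ℤ) : |cden M s Λ f ℓ| ≤ 1 := by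
  unfold cden dens
  rw [abs_div, Nat.abs_cast]
  refine div_le_one_of_le₀ ?_ (Nat.cast_nonneg _)
  refine (abs_sum_le_sum_abs _ _).trans ((sum_le_sum fun x _ => hf x).trans ?_)
  rw [sum_const, nsmul_eq_mul, mul_one]

theorem energy_nonneg (M s Λ : ℕ) (f : ℤ√2 → ℝ) : 0 ≤ energy M s Λ f :=
  div_nonneg (sum_nonneg fun _ _ => sq_nonneg _) (Nat.cast_nonneg _)

theorem energy_le_one (M s Λ : ℕ) {f : ℤ√2 → ℝ} (hf : ∀ x, |f x| ≤ 1) :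
    energy M s Λ f ≤ 1 := by
  refine div_le_one_of_le₀ ?_ (Nat.cast_nonneg _)
  refine (sum_le_sum (g := fun _ => (1 : ℝ)) fun x _ => ?_).trans ?_
  · have h := abs_cden_le_one M s Λ hf (lab M s Λ x)
    have h0 : (cav M s Λ f x) ^ 2 = |cden M s Λ f (lab M s Λ x)| ^ 2 := by
      rw [sq_abs]; rfl
    rw [h0]
    exact pow_le_one₀ (abs_nonneg _) h
  · rw [sum_const, nsmul_eq_mul, mul_one]

theorem inc_nonneg (M s M' s' Λ : ℕ) (f : ℤ√2 → ℝ) : 0 ≤ inc M s M' s' Λ f :=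
  div_nonneg (sum_nonneg fun _ _ => sq_nonneg _) (Nat.cast_nonneg _)

theorem inc_eq {M s M' s' : ℕ} (hM : M ∣ M') (hs : s ∣ s') (hs' : 0 < s') (Λ : ℕ)
    (f : ℤ√2 → ℝ) : inc M s M' s' Λ f = energy M' s' Λ f - energy M s Λ f := by
  obtain ⟨φ, hφ⟩ := lab_factor hM hs hs' Λ
  have h1 : ∑ x ∈ box Λ, cav M' s' Λ f x * cav M s Λ f x =
      ∑ x ∈ box Λ, (cav M s Λ f x) ^ 2 := by
    have e1 := cav_pair M' s' Λ f (fun ℓ => cden M s Λ f (φ ℓ))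
    have e2 := cav_pair M s Λ f (fun ℓ => cden M s Λ f ℓ)
    have e3 : ∑ x ∈ box Λ, f x * cden M s Λ f (φ (lab M' s' Λ x)) =
        ∑ x ∈ box Λ, f x * cden M s Λ f (lab M s Λ x) :=
      sum_congr rfl fun x _ => by rw [← hφ x]
    have e4 : ∑ x ∈ box Λ, cav M' s' Λ f x * cden M s Λ f (φ (lab M' s' Λ x)) =
        ∑ x ∈ box Λ, cav M' s' Λ f x * cav M s Λ f x :=
      sum_congr rfl fun x _ => by rw [← hφ x]; rfl
    have e5 : ∑ x ∈ box Λ, cav M s Λ f x * cden M s Λ f (lab M s Λ x) =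
        ∑ x ∈ box Λ, (cav M s Λ f x) ^ 2 :=
      sum_congr rfl fun x _ => by rw [sq]; rfl
    rw [← e4, ← e1, e3, e2, e5]
  have h2 : ∑ x ∈ box Λ, (cav M' s' Λ f x - cav M s Λ f x) ^ 2 =
      ∑ x ∈ box Λ, (cav M' s' Λ f x) ^ 2 - ∑ x ∈ box Λ, (cav M s Λ f x) ^ 2 := by
    have : ∀ x ∈ box Λ, (cav M' s' Λ f x - cav M s Λ f x) ^ 2 =
        (cav M' s' Λ f x) ^ 2 - 2 * (cav M' s' Λ f x * cav M s Λ f x) +
          (cav M s Λ f x) ^ 2 := fun x _ => by ring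
    rw [sum_congr rfl this, sum_add_distrib, sum_sub_distrib, ← mul_sum, h1]
    ring
  unfold inc energy
  rw [h2, sub_div]

theorem inc_mono {M s M' s' M'' s'' : ℕ} (hM : M ∣ M') (hs : s ∣ s') (hM' : M' ∣ M'')
    (hs' : s' ∣ s'') (h0 : 0 < s'') (Λ : ℕ) (f : ℤ√2 → ℝ) :
    inc M s M' s' Λ f ≤ inc M s M'' s'' Λ f := by
  have h1 : 0 < s' := Nat.pos_of_dvd_of_pos hs' h0
  rw [inc_eq hM hs h1, inc_eq (hM.trans hM') (hs.trans hs') h0]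
  have h2 := inc_nonneg M' s' M'' s'' Λ f
  rw [inc_eq hM' hs' h0] at h2
  linarith

theorem inc_le_one {M s M' s' : ℕ} (hM : M ∣ M') (hs : s ∣ s') (hs' : 0 < s') (Λ : ℕ)
    {f : ℤ√2 → ℝ} (hf : ∀ x, |f x| ≤ 1) : inc M s M' s' Λ f ≤ 1 := by
  rw [inc_eq hM hs hs']
  have h1 := energy_nonneg M s Λ f
  have h2 := energy_le_one M' s' Λ hf
  linarith

theorem cav_dev {M s M' s' : ℕ} (hM : M ∣ M') (hs : s ∣ s') (hs' : 0 < s') {Λ : ℕ}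
    (f : ℤ√2 → ℝ) {x : ℤ√2} (hx : x ∈ box Λ) :
    cav M' s' Λ (dev M s Λ f) x = cav M' s' Λ f x - cav M s Λ f x := by
  obtain ⟨φ, hφ⟩ := lab_factor hM hs hs' Λ
  have hpos : (0 : ℝ) < #{y ∈ box Λ | lab M' s' Λ y = lab M' s' Λ x} := by
    have : 0 < #{y ∈ box Λ | lab M' s' Λ y = lab M' s' Λ x} :=
      card_pos.2 ⟨x, mem_filter.2 ⟨hx, rfl⟩⟩
    exact_mod_cast this
  have h1 : ∑ y ∈ box Λ with lab M' s' Λ y = lab M' s' Λ x, dev M s Λ f y =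
      ∑ y ∈ box Λ with lab M' s' Λ y = lab M' s' Λ x, f y -
        #{y ∈ box Λ | lab M' s' Λ y = lab M' s' Λ x} * cav M s Λ f x := by
    have : ∀ y ∈ {y ∈ box Λ | lab M' s' Λ y = lab M' s' Λ x},
        dev M s Λ f y = f y - cav M s Λ f x := by
      intro y hy
      obtain ⟨hy1, hy2⟩ := mem_filter.1 hy
      have : cav M s Λ f y = cav M s Λ f x := by
        unfold cav
        rw [hφ y, hφ x, hy2]
      rw [dev, if_pos hy1, this]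
    rw [sum_congr rfl this, sum_sub_distrib, sum_const, nsmul_eq_mul]
  show (∑ y ∈ box Λ with lab M' s' Λ y = lab M' s' Λ x, dev M s Λ f y) /
      #{y ∈ box Λ | lab M' s' Λ y = lab M' s' Λ x} =
    (∑ y ∈ box Λ with lab M' s' Λ y = lab M' s' Λ x, f y) /
      #{y ∈ box Λ | lab M' s' Λ y = lab M' s' Λ x} - cav M s Λ f x
  rw [h1, sub_div, mul_div_cancel_left₀ _ hpos.ne']

end Pool.Agent.helper1.PR
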